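import Pool.Agent.L0h10.TW.Abs

/-!
# Weight operators, invariant forms and the centre of the monodromy

Let `k` be an algebraic closure of a field `k₀` of finite type over `ℚ`, embedded into the field of
complex numbers, and let `X` be a smooth projective variety over `k` which is defined over `k₀`. For a
prime number `ℓ` and `L = ℚ_ℓ`, the Galois group `Γ` of `k` over `k₀` acts on the `ℓ`-adic cohomology
algebras `V n = L ⊗ H(X(ℂ) ^ (n + 1), ℚ)` of the powers of `X`. Let `Ω` be an algebraic closure of
`L` and `U n = Ω ⊗ H(X(ℂ) ^ (n + 1), ℚ)`.
-/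

universe v

namespace Pool.Agent.L0h10.RS

open Pool.Agent.L0h10.TW

variable {L Ω : Type} [Field L] [Field Ω] {C : PowerCohomology L Ω} {Γ : Type v} [Group Γ]
  [TopologicalSpace Γ] (G : GaloisAction C Γ)

/-- The classes of the algebraic cycles on the powers of `X` are Tate classes. (This is always true:
every cycle is defined over a finite extension of `k₀`.) -/
def AlgebraicClassesAreTate : Prop := ∀ n j x, C.alg n j x → IsTate G n j x

/-- The bilinear form `φ` on `H(X, L)` is invariant under some open subgroup of `Γ`:
`χ(g) ^ i φ(g x, g y) = φ(x, y)` for all `x` and `y` of degree `i`. (The form of the Hodge-Riemann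
relations, given by the cup product, the primitive decomposition and the class of an ample divisor,
has this property: `χ(g) g` fixes the class of the divisor for all `g` in some open subgroup.) -/
def IsInvariant (φ : C.V 0 → C.V 0 → L) : Prop :=
  ∃ Δ : OpenSubgroup Γ, ∀ g ∈ Δ, ∀ i x y, C.deg 0 i x → C.deg 0 i y →
    G.χ g ^ i * φ (G.ρ 0 g x) (G.ρ 0 g y) = φ x y

/-- A Tate endomorphism of `H(X, L)`: a linear map which preserves the degrees and commutes with the
action of some open subgroup of `Γ`. -/
def IsTateEndomorphism (f : C.V 0 → C.V 0) : Prop :=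
  IsLinearMap L f ∧ (∀ i x, C.deg 0 i x → C.deg 0 i (f x)) ∧
    ∃ Δ : OpenSubgroup Γ, ∀ g ∈ Δ, ∀ x, f (G.ρ 0 g x) = G.ρ 0 g (f x)

/-- The elements of the centre of the algebra of the Tate endomorphisms of `H(X, L)` are self-adjoint
for the form `φ`. -/
def CentreSelfAdjoint (φ : C.V 0 → C.V 0 → L) : Prop :=
  ∀ f, IsTateEndomorphism G f → (∀ h, IsTateEndomorphism G h → ∀ x, f (h x) = h (f x)) →
    ∀ x y, φ (f x) y = φ x (f y)

/-- The centre of the Lie algebra of the infinitesimal operators which are zero on the Tate classes
is zero. (If the Galois action is semisimple, it means that the connected `ℓ`-adic algebraic monodromy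
group of `X`, modulo the homotheties coming from the weights, is semisimple.) -/
def SemisimpleMonodromy : Prop := ∀ Z, IsInfinitesimal C Z → KillsTate G Z →
  (∀ D, IsInfinitesimal C D → KillsTate G D → ∀ x, Z 0 (D 0 x) = D 0 (Z 0 x)) →
    ∀ x, IsZero (Z 0 x)

/-- A weight operator: an infinitesimal operator which is zero on the Tate classes, and such that
`H(X, Ω)` is spanned by eigenvectors whose eigenvalues are integers of absolute value at most `w`.
(If `μ` is a cocharacter of the `ℓ`-adic algebraic monodromy group, for example the Hodge-Tate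
cocharacter at a place above `ℓ`, which has the weights `p` on the parts of Hodge-Tate type `(p, q)`
of `H ^ (p + q)(X)`, then `2 dμ - i` on the cohomology of degree `i` is such an operator.) -/
def IsWeightOperator (w : ℕ) (D : ∀ n, C.U n → C.U n) : Prop :=
  IsInfinitesimal C D ∧ KillsTate G D ∧
    ∀ x, IsComb Ω (fun y => ∃ m : ℤ, |m| ≤ (w : ℤ) ∧ IsMul (m : Ω) y (D 0 y)) x

/-- The classes on the powers of `X` with coefficients in `Ω` which are killed by all weight
operators are linear combinations of Tate classes. -/
def WeightOperatorsGenerate (w : ℕ) : Prop :=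
  ∀ n x, (∀ D, IsWeightOperator G w D → IsZero (D n x)) →
    IsComb Ω (fun y => ∃ j z, IsTate G n j z ∧ C.up n z = y) x

/-- The codimension in `H(X, L)` of the subspace spanned by the Tate classes. -/
noncomputable def transcendental : ℕ :=
  Module.finrank L (C.V 0 ⧸ Submodule.span L {x | ∃ j, IsTate G 0 j x})

/-- The Tate classes on `X ^ (n + 1)` are linear combinations of Hodge classes. -/
def TateClassesAreHodge (n : ℕ) : Prop := ∀ j x, IsTate G n j x → IsComb L (C.hodge n j) x

end Pool.Agent.L0h10.RS
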