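import Pool.Agent.L0h10.RS.Abs
import Pool.Agent.L0h10.TW.Conv
import Pool.Agent.L0h10.RT.Core2

/-!
# The bounded power theorem: conversions
-/

open CategoryTheory AlgebraicGeometry
open scoped TensorProduct

universe u v

namespace Pool.Agent.L0h10.RS

open Pool.Agent.H914 Pool.Agent.H914.VarClass Pool.Agent.H914.VarClass.Obj
  Pool.Agent.H914.WeilCohomology
open Pool.Agent.Y121.AHS Pool.Agent.N996.FP
open Pool.Agent.Y133.Half (pw ClassPred)
open Pool.Agent.Y121.AH (hodgePred)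
open Pool.Agent.L0h10.TW Pool.Agent.L0h10.RT

variable {k : Type u} [Field k] {𝒱 : VarClass k} {ops : CycleOps 𝒱}
  {T : HodgeTheory ops} {X : 𝒱.Obj}
  {Γ : Type v} [Group Γ] {L : Type} [Field L] [Algebra T.W.K L]
  [TopologicalSpace Γ] (G : TW.GaloisAction (powers T X L) Γ)

lemma inv_iff (φ : HL T.W L X → HL T.W L X → L) :
    InvForm (toTS G) φ ↔ IsInvariant G φ := Iff.rfl

lemma endo_iff (f : HL T.W L (pw X 0) → HL T.W L (pw X 0)) :
    IsTateEndo (toTS G) f ↔ IsTateEndomorphism G f :=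
  ⟨fun h => ⟨⟨h.add, h.smul⟩, h.deg, h.comm⟩, fun h => ⟨h.1.map_add, h.1.map_smul, h.2.1, h.2.2⟩⟩

lemma adj_iff (φ : HL T.W L X → HL T.W L X → L) :
    CentreAdj (toTS G) φ ↔ CentreSelfAdjoint G φ :=
  forall_congr' fun f => imp_congr (endo_iff G f) <| imp_congr
    (forall_congr' fun h => imp_congr (endo_iff G h) Iff.rfl) Iff.rfl

lemma zero_iff : CentreZero (AlgebraicClosure L) (T := T) (X := X) (toTS G) ↔
    SemisimpleMonodromy G :=
  forall_congr' fun _ => imp_congr (inf_iff _) <| imp_congr (kt_iff G _) <| imp_congr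
    (forall_congr' fun D => imp_congr (inf_iff D) <| imp_congr (kt_iff G D) Iff.rfl) Iff.rfl

lemma weight_iff (w : ℕ) (D : ∀ n, (powers T X L).U n → (powers T X L).U n) :
    IsWeight (T := T) (X := X) (Ω := AlgebraicClosure L) (toTS G) w D ↔
      IsWeightOperator G w D :=
  ⟨fun h => ⟨(inf_iff D).1 h.inf, (kt_iff G D).1 h.tate, h.int⟩,
    fun h => ⟨(inf_iff D).2 h.1, (kt_iff G D).2 h.2.1, h.2.2⟩⟩

lemma gen_iff (w : ℕ) : WeightGen (AlgebraicClosure L) (T := T) (X := X) (toTS G) w ↔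
    WeightOperatorsGenerate G w :=
  forall_congr' fun _ => forall_congr' fun _ => imp_congr
    (forall_congr' fun D => imp_congr (weight_iff G w D) Iff.rfl) Iff.rfl

lemma codim_eq : codim (toTS G) = transcendental G := rfl

lemma alg_iff : QTate (toTS G) (algPred T) ↔ AlgebraicClassesAreTate G := by
  constructor
  · rintro h n j _ ⟨z, hz, rfl⟩
    exact h n j _ ⟨z, hz, rfl⟩
  · rintro h n j _ ⟨z, hz, rfl⟩
    exact h n j _ ⟨z, hz, rfl⟩

lemma tq_iff (n : ℕ) : TateQ (toTS G) (algPred T) n ↔ TateConjecture G n := by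
  have h1 : ∀ j, {y : HL T.W L (pw X n) | ∃ c, (algPred T).P (pw X n) j c ∧ emL T.W L c = y} =
      {y : HL T.W L (pw X n) | ∃ z, (pw X n).IsCyc j z ∧
        emL T.W L (val (T.W.cl (pw X n)) z) = y} := by
    intro j
    ext y
    constructor
    · rintro ⟨_, ⟨z, hz, rfl⟩, rfl⟩
      exact ⟨z, hz, rfl⟩
    · rintro ⟨z, hz, rfl⟩
      exact ⟨_, ⟨z, hz, rfl⟩, rfl⟩
  constructor
  · intro h j x hx
    have h2 := h j x hx
    rw [h1] at h2
    exact h2
  · intro h j x hx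
    have h2 := h j x hx
    rw [h1]
    exact h2

lemma hq_iff : QTate (toTS G) (hodgePred (toH T)) ↔ HodgeClassesAreTate G := by
  constructor
  · rintro h n j _ ⟨c, hc, rfl⟩
    exact h n j c hc
  · intro h n j c hc
    exact h n j _ ⟨c, hc, rfl⟩

lemma th_iff (n : ℕ) : TateQ (toTS G) (hodgePred (toH T)) n ↔ RS.TateClassesAreHodge G n :=
  Iff.rfl

lemma alg_sp (n : ℕ) : (algPred T).sp (pw X n) ≤ (hodgePred (toH T)).sp (pw X n) := by
  intro c hc
  refine ClassPred.sp_ind (Q := algPred T) (q := fun c => c ∈ (hodgePred (toH T)).sp (pw X n))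
    ?_ ?_ ?_ hc
  · rintro j _ ⟨z, hz, rfl⟩
    exact ClassPred.sp_of (Q := hodgePred (toH T)) (T.cyc _ _ z hz)
  · exact Submodule.zero_mem _
  · intro a b ha hb
    exact Submodule.add_mem _ ha hb

/-- **The bounded power theorem.** -/
theorem bounded [IsTopologicalGroup Γ] [CharZero L] (θ : AlgebraicClosure L ≃+* ℂ)
    {ψ : RForm T.W X} (hψ : IsPolarisation T X ψ) (h1 : AlgebraicClassesAreTate G)
    (h2 : IsInvariant G (formL L ψ)) (h3 : ActsSemisimply G) {w : ℕ}
    (h4 : WeightOperatorsGenerate G w) {N : ℕ}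
    (hN : (CentreSelfAdjoint G (formL L ψ) ∧ N = max 4 (transcendental G)) ∨
      (SemisimpleMonodromy G ∧ N = max 4 (transcendental G ^ 2 / 4)) ∨
      N = max 4 ((max 1 w * transcendental G) ^ transcendental G)) :
    (TateConjecture G (N - 1) → ∀ n, TateConjecture G n ∧
      (HodgeClassesAreTate G → TW.HodgeConjecture (powers T X L) n)) ∧
    (HodgeClassesAreTate G → RS.TateClassesAreHodge G (N - 1) → ∀ n,
      RS.TateClassesAreHodge G n) := by
  have hN' : (CentreAdj (toTS G) (formL L ψ) ∧ N = max 4 (codim (toTS G))) ∨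
      (CentreZero (AlgebraicClosure L) (T := T) (X := X) (toTS G) ∧
        N = max 4 (codim (toTS G) ^ 2 / 4)) ∨
      N = max 4 ((max 1 w * codim (toTS G)) ^ codim (toTS G)) := by
    rcases hN with ⟨h5, h6⟩ | ⟨h5, h6⟩ | h6
    · exact Or.inl ⟨(adj_iff G _).2 h5, h6⟩
    · exact Or.inr (Or.inl ⟨(zero_iff G).2 h5, h6⟩)
    · exact Or.inr (Or.inr h6)
  constructor
  · intro hT n
    have h5 := core (T := T) (X := X) (G := toTS G) (Q := algPred T) θ hψ alg_sp
      ((alg_iff G).2 h1) ((inv_iff G _).2 h2) ((h2_iff G).2 h3) ((gen_iff G w).2 h4) hN'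
      ((tq_iff G _).2 hT) n
    refine ⟨(tq_iff G n).1 h5, fun h6 => ?_⟩
    have h7 := TS.hodge_of_tate (T := T) (X := X) (toTS G) ((h1_iff G).2 h6)
      ((tc_iff G n).2 ((tq_iff G n).1 h5))
    rintro j _ ⟨c, hc, rfl⟩
    obtain ⟨z, hz, rfl⟩ := h7 j c hc
    exact ⟨z, hz, rfl⟩
  · intro h6 hT n
    exact (th_iff G n).1 (core (T := T) (X := X) (G := toTS G) (Q := hodgePred (toH T)) θ hψ
      (fun _ => le_rfl) ((hq_iff G).2 h6) ((inv_iff G _).2 h2) ((h2_iff G).2 h3)
      ((gen_iff G w).2 h4) hN' ((th_iff G _).2 hT) n)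

end Pool.Agent.L0h10.RS
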